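import Pool.Agent.Helper58.DG.Goals

/-!
# D_DEG: the signed number of zeros is a homotopy invariant
-/

set_option autoImplicit false

open MeasureTheory Topology Set
open scoped ContDiff Manifold

namespace Pool.Agent.Helper86.DG

open Pool.Agent.Helper58.DG

/-- a continuous function without zeros on a compact set is bounded below -/
theorem bddb {Y : Type*} [TopologicalSpace Y] {m : ℕ} (g : Y → Fin m → ℝ) (hg : Continuous g)
    (C : Set Y) (hC : IsCompact C) (h : ∀ y ∈ C, g y ≠ 0) : ∃ ε > 0, ∀ y ∈ C, ε ≤ ‖g y‖ := by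
  rcases C.eq_empty_or_nonempty with h0 | h0
  · exact ⟨1, one_pos, by simp [h0]⟩
  · obtain ⟨y, hy, hmin⟩ := hC.exists_isMinOn h0 hg.norm.continuousOn
    exact ⟨‖g y‖, norm_pos_iff.2 (h y hy), fun z hz => hmin hz⟩

theorem cont_jac {m : ℕ} (f : (Fin m → ℝ) → Fin m → ℝ) (hf : ContDiff ℝ ∞ f) :
    Continuous (jac f) := by
  unfold jac
  exact ContinuousLinearMap.continuous_det.comp (hf.continuous_fderiv (by simp))

theorem endp (hL : D_LOC) {m : ℕ} (f : (Fin m → ℝ) → Fin m → ℝ) (hf : ContDiff ℝ ∞ f)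
    (U K₁ W : Set (Fin m → ℝ)) (χ : (Fin m → ℝ) → ℝ) (hχ : Continuous χ)
    (Z : Finset (Fin m → ℝ)) (hZ : ∀ x, x ∈ Z ↔ x ∈ U ∧ f x = 0)
    (hj : ∀ x ∈ Z, jac f x ≠ 0) (hW : IsOpen W) (hZW : ∀ x ∈ Z, x ∈ W)
    (hχ1 : ∀ x ∈ W, χ x = 1) (hχ0 : ∀ x, x ∉ K₁ → χ x = 0) (hK₁ : IsCompact K₁)
    (hK₁U : K₁ ⊆ U) :
    ∃ ε > 0, ∀ φ : (Fin m → ℝ) → ℝ, Continuous φ → (∀ y, ε ≤ ‖y‖ → φ y = 0) →
      ∫ x, χ x * φ (f x) * jac f x = ((∑ z ∈ Z, sg (jac f z) : ℤ) : ℝ) * ∫ y, φ y := by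
  classical
  obtain ⟨N, hN, hNd⟩ := (Z.finite_toSet).t2_separation
  have h1 : ∀ z : (Fin m → ℝ), ∃ (O : Set (Fin m → ℝ)) (δ : ℝ), IsOpen O ∧ O ⊆ N z ∩ W ∧ 0 < δ ∧
      (z ∈ Z → z ∈ O ∧ ∀ φ : (Fin m → ℝ) → ℝ,
      Continuous φ → (∀ y, δ ≤ ‖y‖ → φ y = 0) →
      ∫ x in O, φ (f x) * jac f x = sg (jac f z) * ∫ y, φ y) := by
    intro z
    by_cases hz : z ∈ Z
    · have hV : N z ∩ W ∈ 𝓝 z :=
        Filter.inter_mem ((hN z).2.mem_nhds (hN z).1) (hW.mem_nhds (hZW z hz))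
      obtain ⟨O, hO, hzO, hOV, δ, hδ, hφ⟩ := hL m f z _ hf ((hZ z).1 hz).2 (hj z hz) hV
      exact ⟨O, δ, hO, hOV, hδ, fun _ => ⟨hzO, hφ⟩⟩
    · exact ⟨∅, 1, isOpen_empty, empty_subset _, one_pos, fun h => absurd h hz⟩
  choose O δ hO hOV hδ hφ using h1
  have hC : IsCompact (K₁ \ ⋃ z ∈ Z, O z) := by
    apply hK₁.diff
    exact isOpen_biUnion fun z _ => hO z
  obtain ⟨ε₀, hε₀, hε₀'⟩ := bddb f hf.continuous _ hC (by
    intro y hy h0
    have hyZ : y ∈ Z := (hZ y).2 ⟨hK₁U hy.1, h0⟩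
    exact hy.2 (mem_biUnion (Finset.mem_coe.2 hyZ) (hφ y hyZ).1))
  have hev : ∀ᶠ ε in 𝓝[>] (0 : ℝ), 0 < ε ∧ ε ≤ ε₀ ∧ ∀ z ∈ Z, ε ≤ δ z := by
    have e1 : ∀ a : ℝ, 0 < a → ∀ᶠ ε in 𝓝[>] (0 : ℝ), ε ≤ a := fun a ha =>
      Filter.Eventually.filter_mono nhdsWithin_le_nhds (Iic_mem_nhds ha)
    refine (eventually_mem_nhdsWithin).and ((e1 ε₀ hε₀).and ?_)
    exact (Filter.eventually_all_finset Z).2 fun z _ => e1 (δ z) (hδ z)
  obtain ⟨ε, hε, hεε₀, hεδ⟩ := hev.exists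
  refine ⟨ε, hε, ?_⟩
  intro φ hφc hφ0
  have hzero : ∀ x, x ∉ (⋃ z ∈ Z, O z) → χ x * φ (f x) * jac f x = 0 := by
    intro x hx
    by_cases hxK : x ∈ K₁
    · have := hφ0 (f x) (hεε₀.trans (hε₀' x ⟨hxK, hx⟩))
      rw [this]
      ring
    · rw [hχ0 x hxK]
      ring
  have hcont : Continuous fun x => χ x * φ (f x) * jac f x :=
    (hχ.mul (hφc.comp hf.continuous)).mul (cont_jac f hf)
  have hint : Integrable fun x => χ x * φ (f x) * jac f x := by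
    apply hcont.integrable_of_hasCompactSupport
    apply HasCompactSupport.intro hK₁
    intro x hx
    rw [hχ0 x hx]
    ring
  rw [← setIntegral_eq_integral_of_forall_compl_eq_zero hzero]
  rw [integral_biUnion_finset Z (fun z _ => (hO z).measurableSet) ?_
    (fun z _ => hint.integrableOn)]
  · rw [Int.cast_sum, Finset.sum_mul]
    refine Finset.sum_congr rfl fun z hz => ?_
    rw [← (hφ z hz).2 φ hφc (fun y hy => hφ0 y ((hεδ z hz).trans hy))]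
    refine setIntegral_congr_fun (hO z).measurableSet fun x hx => ?_
    change χ x * φ (f x) * jac f x = φ (f x) * jac f x
    rw [hχ1 x (hOV z hx).2]
    ring
  · intro z hz z' hz' hne
    have := hNd hz hz' hne
    exact this.mono (fun x hx => (hOV z hx).1) (fun x hx => (hOV z' hx).1)

theorem d_deg (hH : D_HOM) (hL : D_LOC) : D_DEG := by
  intro m hm F U K Z₀ Z₁ hF hU hK hKU hzK hZ₀ hZ₁ hj₀ hj₁
  obtain ⟨K₁, hK₁, hKK₁, hK₁U⟩ := exists_compact_between hK hU hKU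
  obtain ⟨χ', hχ1, hχ0, -⟩ := exists_contMDiffMap_one_nhds_of_subset_interior
    (n := (⊤ : ℕ∞)) (I := 𝓘(ℝ, Fin m → ℝ)) hK.isClosed hKK₁
  set χ : (Fin m → ℝ) → ℝ := fun x => χ' x with hχdef
  have hχs : ContDiff ℝ ∞ χ := χ'.contMDiff.contDiff
  have hχ0' : ∀ x, x ∉ K₁ → χ x = 0 := hχ0
  have hχcs : HasCompactSupport χ := HasCompactSupport.intro hK₁ hχ0'
  obtain ⟨W, hW, hKW, hχW⟩ := eventually_nhdsSet_iff_exists.1 hχ1
  have hF0 : ∀ s : ℝ, ContDiff ℝ ∞ (F s) := by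
    intro s
    have h1 : ContDiff ℝ ∞ (fun x : Fin m → ℝ => ((s, x) : ℝ × (Fin m → ℝ))) :=
      contDiff_const.prodMk contDiff_id
    exact hF.comp h1
  -- the bound on the support of the derivative
  have hA : IsCompact (tsupport (fderiv ℝ χ)) := by
    have : HasCompactSupport (fderiv ℝ χ) := hχcs.fderiv (𝕜 := ℝ)
    exact this
  have hAU : tsupport (fderiv ℝ χ) ⊆ K₁ := by
    refine (tsupport_fderiv_subset ℝ).trans ?_
    exact closure_minimal (fun x hx => by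
      by_contra h
      exact hx (hχ0' x h)) hK₁.isClosed
  have hAW : ∀ x ∈ tsupport (fderiv ℝ χ), x ∉ W := by
    intro x hx hxW
    have h1 : W ∩ Function.support (fderiv ℝ χ) = ∅ := by
      ext y
      simp only [mem_inter_iff, Function.mem_support, mem_empty_iff_false, iff_false, not_and,
        not_not]
      intro hy
      have h2 : χ =ᶠ[𝓝 y] fun _ => (1 : ℝ) := by
        filter_upwards [hW.mem_nhds hy] with w hw
        exact hχW w hw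
      rw [h2.fderiv_eq]
      simp
    have h3 : (W ∩ Function.support (fderiv ℝ χ)).Nonempty :=
      mem_closure_iff.1 hx W hW hxW
    rw [h1] at h3
    exact absurd h3 (by simp)
  obtain ⟨ε₁, hε₁, hε₁'⟩ := bddb (fun z : ℝ × (Fin m → ℝ) => F z.1 z.2) hF.continuous
    (Icc (0 : ℝ) 1 ×ˢ tsupport (fderiv ℝ χ)) (isCompact_Icc.prod hA) (by
      rintro ⟨s, x⟩ ⟨hs, hx⟩ h0
      exact hAW x hx (hKW (hzK s hs x (hK₁U (hAU hx)) h0)))
  obtain ⟨ε₂, hε₂, h2⟩ := endp hL (F 0) (hF0 0) U K₁ W χ hχs.continuous Z₀ hZ₀ hj₀ hW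
    (fun x hx => hKW (hzK 0 (by simp) x ((hZ₀ x).1 hx).1 ((hZ₀ x).1 hx).2)) hχW hχ0' hK₁ hK₁U
  obtain ⟨ε₃, hε₃, h3⟩ := endp hL (F 1) (hF0 1) U K₁ W χ hχs.continuous Z₁ hZ₁ hj₁ hW
    (fun x hx => hKW (hzK 1 (by simp) x ((hZ₁ x).1 hx).1 ((hZ₁ x).1 hx).2)) hχW hχ0' hK₁ hK₁U
  set ε := min ε₁ (min ε₂ ε₃) with hε
  have hεpos : 0 < ε := lt_min hε₁ (lt_min hε₂ hε₃)
  let B : ContDiffBump (0 : Fin m → ℝ) := ⟨ε / 2, ε, by positivity, by linarith⟩
  set φ : (Fin m → ℝ) → ℝ := B.normed volume with hφ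
  have hφs : ContDiff ℝ ∞ φ := B.contDiff_normed
  have hφ1 : ∫ y, φ y = 1 := B.integral_normed
  have hφ0 : ∀ y, ε ≤ ‖y‖ → φ y = 0 := by
    intro y hy
    have : y ∉ Function.support φ := by
      rw [hφ, B.support_normed_eq]
      simpa [B] using hy
    simpa using this
  have hhom := hH m hm F φ χ hF hφs hχs hχcs (by
    intro s hs x hx
    apply hφ0
    refine (min_le_left _ _).trans (hε₁' (s, x) ⟨hs, ?_⟩)
    exact subset_tsupport _ hx)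
  rw [h2 φ hφs.continuous (fun y hy => hφ0 y
      (((min_le_right _ _).trans (min_le_left _ _)).trans hy)),
    h3 φ hφs.continuous (fun y hy => hφ0 y
      (((min_le_right _ _).trans (min_le_right _ _)).trans hy)), hφ1, mul_one, mul_one] at hhom
  exact_mod_cast hhom

end Pool.Agent.Helper86.DG
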